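import Mathlib
import Pool.Agent.W262.RK.Stm
import Pool.Agent.H437R2.Man.MWWeak

/-! Task RK-HALF (project of helper262, MP_157626_nt). -/

set_option autoImplicit false

open WeierstrassCurve

namespace Pool.Agent.W214.RK

open Pool.Agent.H437R2.Man.MW (crv crv_eqn crv_nonsing add_double pt_fg)

theorem gen (a b : ℚ) (ha : a ≠ 0) (hb : b ≠ 0) (hab : a ≠ b) (W : WeierstrassCurve ℚ)
    (hW : W = crv 0 (-a) (-b)) :
    AddGroup.FG W.toAffine.Point ∧
    (∀ (x y x' y' : ℚ) (h : W.toAffine.Nonsingular x y)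
      (h' : W.toAffine.Nonsingular x' y'), y ≠ 0 → y' ≠ 0 → IsSquare (x * x') →
      IsSquare ((x - a) * (x' - a)) → IsSquare ((x - b) * (x' - b)) →
      ∃ Q : W.toAffine.Point,
        (WeierstrassCurve.Affine.Point.some x y h : W.toAffine.Point) =
          WeierstrassCurve.Affine.Point.some x' y' h' + (Q + Q)) ∧
    (∀ x y : ℚ, W.toAffine.Nonsingular x y ↔ y ^ 2 = x * (x - a) * (x - b)) ∧
    {P : W.toAffine.Point | P = 0 ∨ ∃ (x : ℚ) (h : W.toAffine.Nonsingular x 0),
      P = WeierstrassCurve.Affine.Point.some x 0 h}.ncard ≤ 4 := by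
  subst hW
  have q12 : (0 : ℚ) ≠ -a := fun h => ha (neg_eq_zero.1 h.symm)
  have q13 : (0 : ℚ) ≠ -b := fun h => hb (neg_eq_zero.1 h.symm)
  have q23 : -a ≠ -b := fun h => hab (neg_injective h)
  have heq : ∀ x y : ℚ, (crv 0 (-a) (-b)).toAffine.Nonsingular x y ↔
      y ^ 2 = x * (x - a) * (x - b) := by
    intro x y
    constructor
    · intro h
      have h1 := crv_eqn.mp h.1
      linear_combination h1
    · intro h
      exact crv_nonsing q12 q13 q23 (by linear_combination h)
  refine ⟨pt_fg q12 q13 q23, ?_, heq, ?_⟩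
  · intro x y x' y' h h' hy hy' s1 s2 s3
    have e := (heq x y).1 h
    have e' := (heq x' y').1 h'
    have hp : x * (x - a) * (x - b) ≠ 0 := by rw [← e]; exact pow_ne_zero _ hy
    have hp' : x' * (x' - a) * (x' - b) ≠ 0 := by rw [← e']; exact pow_ne_zero _ hy'
    have n1 : x ≠ 0 := fun h => hp (by rw [h]; ring)
    have n2 : x - a ≠ 0 := fun h => hp (by rw [h]; ring)
    have n3 : x - b ≠ 0 := fun h => hp (by rw [h]; ring)
    have n1' : x' ≠ 0 := fun h => hp' (by rw [h]; ring)
    have n2' : x' - a ≠ 0 := fun h => hp' (by rw [h]; ring)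
    have n3' : x' - b ≠ 0 := fun h => hp' (by rw [h]; ring)
    obtain ⟨r1, hr1⟩ := s1
    obtain ⟨r2, hr2⟩ := s2
    obtain ⟨r3, hr3⟩ := s3
    have m1 : r1 ≠ 0 := fun h => mul_ne_zero n1 n1' (by rw [hr1, h]; ring)
    have m2 : r2 ≠ 0 := fun h => mul_ne_zero n2 n2' (by rw [hr2, h]; ring)
    have m3 : r3 ≠ 0 := fun h => mul_ne_zero n3 n3' (by rw [hr3, h]; ring)
    obtain ⟨Q, hQ⟩ := add_double (r1 := r1) (r2 := r2) (r3 := r3) q12 q13 q23 h h' m1 m2 m3
      (by linear_combination hr1) (by linear_combination hr2) (by linear_combination hr3)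
    refine ⟨Q - Affine.Point.some x' y' h', ?_⟩
    have e3 : (Affine.Point.some x y h : (crv 0 (-a) (-b)).toAffine.Point) =
        (Q + Q) - Affine.Point.some x' y' h' := by
      rw [hQ]
      abel
    rw [e3]
    abel
  · have h0 : (crv 0 (-a) (-b)).toAffine.Nonsingular 0 0 := (heq 0 0).2 (by ring)
    have h1 : (crv 0 (-a) (-b)).toAffine.Nonsingular a 0 := (heq a 0).2 (by ring)
    have h2 : (crv 0 (-a) (-b)).toAffine.Nonsingular b 0 := (heq b 0).2 (by ring)
    have hsub : {P : (crv 0 (-a) (-b)).toAffine.Point | P = 0 ∨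
        ∃ (x : ℚ) (h : (crv 0 (-a) (-b)).toAffine.Nonsingular x 0),
          P = WeierstrassCurve.Affine.Point.some x 0 h} ⊆
        {0, Affine.Point.some 0 0 h0, Affine.Point.some a 0 h1, Affine.Point.some b 0 h2} := by
      rintro P (rfl | ⟨x, h, rfl⟩)
      · simp
      · have e := (heq x 0).1 h
        have e' : x * (x - a) * (x - b) = 0 := by rw [← e]; ring
        rcases mul_eq_zero.1 e' with e1 | e1
        · rcases mul_eq_zero.1 e1 with e2 | e2
          · subst e2
            simp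
          · have e3 : x = a := sub_eq_zero.1 e2
            subst e3
            simp
        · have e3 : x = b := sub_eq_zero.1 e1
          subst e3
          simp
    refine (Set.ncard_le_ncard hsub (Set.toFinite _)).trans ?_
    refine (Set.ncard_insert_le _ _).trans ?_
    refine Nat.succ_le_succ ((Set.ncard_insert_le _ _).trans ?_)
    refine Nat.succ_le_succ ((Set.ncard_insert_le _ _).trans ?_)
    simp

theorem half : Pool.Agent.W262.RK.HALF := by
  intro A B hA hB hAB
  have h := gen (A : ℚ) (B : ℚ) (by exact_mod_cast hA) (by exact_mod_cast hB)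
    (by exact_mod_cast hAB) (Pool.Agent.W262.RK.EAB A B) (by
      apply WeierstrassCurve.ext
      · rfl
      · show -((A : ℚ) + B) = 0 + -(A : ℚ) + -(B : ℚ)
        ring
      · rfl
      · show (A : ℚ) * B = 0 * -(A : ℚ) + 0 * -(B : ℚ) + -(A : ℚ) * -(B : ℚ)
        ring
      · show (0 : ℚ) = 0 * -(A : ℚ) * -(B : ℚ)
        ring)
  exact h

end Pool.Agent.W214.RK
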